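import Pool.Agent.H96.KAL.QALG

/-!
# Structure of the critical identity in quadric frames, flat case (row QALF)
-/

set_option autoImplicit false

namespace Pool.KAL

/-- The first difference of a function on the nodes `0, k`. -/
def qC (g : Fin 4 → ℝ) (k : Fin 4) : ℝ := g k - g 0

theorem qC_bound (g : Fin 4 → ℝ) (k : Fin 4) (M : ℝ) (hg : ∀ i, |g i| ≤ M) :
    |qC g k| ≤ 2 * M := by
  have := qabs_sub (hg k) (hg 0)
  unfold qC; linarith

theorem frel {ρ κ : ℝ} {t s1 s2 h1 h2 d : Fin 4 → ℝ} {L : Set QElt}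
    (H : QHyp ρ κ t s1 s2 h1 h2 d L) (hg : ∀ v ∈ L, |v.ga| ≤ κ ^ 3) (k : Fin 4) (v : QElt)
    (hv : v ∈ L) :
    |qC h1 k * v.y1 + qC h2 k * v.y2 + qC s1 k * v.o1 + qC s2 k * v.o2 + qC d k|
      ≤ 4 * (1 / ρ) * κ ^ 3 := by
  have r1 : 1 ≤ 1 / ρ := by rw [le_div_iff₀ H.hρ]; linarith [H.hρ1]
  have h : ∀ i, |h1 i * v.y1 + s1 i * v.o1 + (h2 i * v.y2 + s2 i * v.o2) + d i - v.be|
      ≤ 2 * (1 / ρ) * κ ^ 3 := by
    intro i
    have h := qabs_add (H.hr v hv i) (qabs_mul (H.ht i) (hg v hv))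
    have e : h1 i * v.y1 + s1 i * v.o1 + (h2 i * v.y2 + s2 i * v.o2) + d i - v.be - t i * v.ga
      + t i * v.ga = h1 i * v.y1 + s1 i * v.o1 + (h2 i * v.y2 + s2 i * v.o2) + d i - v.be := by
      ring
    rw [e] at h
    set r := 1 / ρ with hr
    have m := qmono r1 H.hκ.le H.hκ1 (show 0 ≤ 1 by norm_num) (le_refl 3)
    simp only [pow_zero, one_mul, pow_one] at m
    linarith
  have h' := qC_bound (fun i => h1 i * v.y1 + s1 i * v.o1 + (h2 i * v.y2 + s2 i * v.o2) + d i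
    - v.be) k _ h
  have e : qC (fun i => h1 i * v.y1 + s1 i * v.o1 + (h2 i * v.y2 + s2 i * v.o2) + d i
    - v.be) k = qC h1 k * v.y1 + qC h2 k * v.y2 + qC s1 k * v.o1 + qC s2 k * v.o2 + qC d k := by
    unfold qC; ring
  rw [e] at h'
  linarith

theorem fB1 {ρ κ : ℝ} {t s1 s2 h1 h2 d : Fin 4 → ℝ} {L : Set QElt}
    (H : QHyp ρ κ t s1 s2 h1 h2 d L) (hg : ∀ v ∈ L, |v.ga| ≤ κ ^ 3) (k : Fin 4) :
    |qC s1 k| ≤ 14 * (1 / ρ) ^ 2 * κ ^ 3 := by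
  obtain ⟨v, hv, w, hw, hy1, hy2, ho2, ho1⟩ := H.A2
  have rv := frel H hg k v hv
  have rw' := frel H hg k w hw
  have hA1 := qC_bound h1 k (1 / ρ) H.b1
  have hA2 := qC_bound h2 k (1 / ρ) H.b2
  have hB2 := qC_bound s2 k 1 H.hs2
  have r1 : 1 ≤ 1 / ρ := by rw [le_div_iff₀ H.hρ]; linarith [H.hρ1]
  set r := 1 / ρ with hr
  have key : |qC s1 k| ≤ (14 * r * κ ^ 3) / ρ := by
    refine qabs_div H.hρ ho1 (x := (qC h1 k * v.y1 + qC h2 k * v.y2 + qC s1 k * v.o1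
      + qC s2 k * v.o2 + qC d k) - (qC h1 k * w.y1 + qC h2 k * w.y2 + qC s1 k * w.o1
      + qC s2 k * w.o2 + qC d k) - qC h1 k * (v.y1 - w.y1) - qC h2 k * (v.y2 - w.y2)
      - qC s2 k * (v.o2 - w.o2)) (by ring) ?_
    have := qabs_sub (qabs_sub (qabs_sub (qabs_sub rv rw') (qabs_mul hA1 hy1))
      (qabs_mul hA2 hy2)) (qabs_mul hB2 ho2)
    have m := qmono r1 H.hκ.le H.hκ1 (show 0 ≤ 1 by norm_num) (le_refl 3)
    simp only [pow_zero, one_mul, pow_one] at m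
    linarith
  have e : (14 * r * κ ^ 3) / ρ = 14 * r ^ 2 * κ ^ 3 := by rw [hr]; field_simp
  rw [e] at key
  exact key

theorem frel2 {ρ κ : ℝ} {t s1 s2 h1 h2 d : Fin 4 → ℝ} {L : Set QElt}
    (H : QHyp ρ κ t s1 s2 h1 h2 d L) (hg : ∀ v ∈ L, |v.ga| ≤ κ ^ 3) (k : Fin 4) (v : QElt)
    (hv : v ∈ L) :
    |qC h1 k * v.y1 + qC h2 k * v.y2 + qC s2 k * v.o2 + qC d k|
      ≤ 18 * (1 / ρ) ^ 2 * κ ^ 3 := by
  have r1 : 1 ≤ 1 / ρ := by rw [le_div_iff₀ H.hρ]; linarith [H.hρ1]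
  have h := qabs_sub (frel H hg k v hv) (qabs_mul (fB1 H hg k) (H.hL v hv).2.2.1)
  have e : qC h1 k * v.y1 + qC h2 k * v.y2 + qC s1 k * v.o1 + qC s2 k * v.o2 + qC d k
    - qC s1 k * v.o1 = qC h1 k * v.y1 + qC h2 k * v.y2 + qC s2 k * v.o2 + qC d k := by
    ring
  rw [e] at h
  set r := 1 / ρ with hr
  have m := qmono r1 H.hκ.le H.hκ1 (show 1 ≤ 2 by norm_num) (le_refl 3)
  simp only [pow_one] at m
  linarith

/-- Case I. -/
theorem fcaseI {ρ κ : ℝ} {t s1 s2 h1 h2 d : Fin 4 → ℝ} {L : Set QElt}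
    (H : QHyp ρ κ t s1 s2 h1 h2 d L) (hg : ∀ v ∈ L, |v.ga| ≤ κ ^ 3)
    (hs : ∀ k, |qC s2 k| ≤ κ) :
    ∀ i, |s1 i| ≤ 200 * (1 / ρ) ^ 4 * κ ∧ |s2 i| ≤ 200 * (1 / ρ) ^ 4 * κ := by
  have r1 : 1 ≤ 1 / ρ := by rw [le_div_iff₀ H.hρ]; linarith [H.hρ1]
  obtain ⟨u, hu, v, hv, w, hw, hdet⟩ := H.A1
  have hA : |qC h1 1| ≤ 4 * (38 * (1 / ρ) ^ 2 * κ) / ρ ∧
      |qC h2 1| ≤ 4 * (38 * (1 / ρ) ^ 2 * κ) / ρ := by
    have hdiff : ∀ x ∈ L, |qC h1 1 * (x.y1 - u.y1) + qC h2 1 * (x.y2 - u.y2)|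
        ≤ 38 * (1 / ρ) ^ 2 * κ := by
      intro x hx
      have ho : |x.o2 - u.o2| ≤ 2 := by
        have := qabs_sub (H.hL x hx).2.2.2 (H.hL u hu).2.2.2; linarith
      have h := qabs_sub (qabs_sub (frel2 H hg 1 x hx) (frel2 H hg 1 u hu))
        (qabs_mul (hs 1) ho)
      have e : qC h1 1 * x.y1 + qC h2 1 * x.y2 + qC s2 1 * x.o2 + qC d 1
        - (qC h1 1 * u.y1 + qC h2 1 * u.y2 + qC s2 1 * u.o2 + qC d 1)
        - qC s2 1 * (x.o2 - u.o2)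
          = qC h1 1 * (x.y1 - u.y1) + qC h2 1 * (x.y2 - u.y2) := by ring
      rw [e] at h
      set r := 1 / ρ with hr
      have m := qmono r1 H.hκ.le H.hκ1 (le_refl 2) (show 1 ≤ 3 by norm_num)
      have m' := qmono r1 H.hκ.le H.hκ1 (show 0 ≤ 2 by norm_num) (le_refl 1)
      simp only [pow_one, pow_zero, one_mul] at m m'
      linarith
    have hy : ∀ x ∈ L, |x.y1 - u.y1| ≤ 2 ∧ |x.y2 - u.y2| ≤ 2 := by
      intro x hx
      constructor
      · have := qabs_sub (H.hL x hx).1 (H.hL u hu).1; linarith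
      · have := qabs_sub (H.hL x hx).2.1 (H.hL u hu).2.1; linarith
    exact qcramer H.hρ (hdiff v hv) (hdiff w hw) (hy v hv).1 (hy v hv).2 (hy w hw).1
      (hy w hw).2 hdet
  have eA : 4 * (38 * (1 / ρ) ^ 2 * κ) / ρ = 152 * (1 / ρ) ^ 3 * κ := by
    field_simp; ring
  rw [eA] at hA
  have d01 : ρ ≤ |t 1 - t 0| := H.hd 1 0 (by decide)
  -- one component
  have comp : ∀ (g h : Fin 4 → ℝ), (∀ i, g i = t i * h i) → (∀ k, |qC g k| ≤
      14 * (1 / ρ) ^ 2 * κ) → |qC h 1| ≤ 152 * (1 / ρ) ^ 3 * κ →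
      ∀ i, |g i| ≤ 200 * (1 / ρ) ^ 4 * κ := by
    intro g h e hgk hh
    have a : |h 1| ≤ (166 * (1 / ρ) ^ 3 * κ) / ρ := by
      refine qabs_div H.hρ d01 (x := qC g 1 - t 0 * qC h 1) ?_ ?_
      · unfold qC; rw [e 1, e 0]; ring
      · have h' := qabs_sub (hgk 1) (qabs_mul (H.ht 0) hh)
        set r := 1 / ρ with hr
        have m := qmono r1 H.hκ.le H.hκ1 (show 2 ≤ 3 by norm_num) (le_refl 1)
        simp only [pow_one] at m
        linarith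
    have ea : (166 * (1 / ρ) ^ 3 * κ) / ρ = 166 * (1 / ρ) ^ 4 * κ := by field_simp
    rw [ea] at a
    have g1 : |g 1| ≤ 166 * (1 / ρ) ^ 4 * κ := by
      rw [e 1]
      have := qabs_mul (H.ht 1) a
      linarith
    intro i
    have h' := qabs_add (qabs_sub g1 (hgk 1)) (hgk i)
    have e' : g 1 - qC g 1 + qC g i = g i := by unfold qC; ring
    rw [e'] at h'
    set r := 1 / ρ with hr
    have m := qmono r1 H.hκ.le H.hκ1 (show 2 ≤ 4 by norm_num) (le_refl 1)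
    have p : 0 ≤ r ^ 4 * κ := by have := H.hκ; positivity
    simp only [pow_one] at m
    linarith
  intro i
  constructor
  · refine comp s1 h1 H.e1 ?_ hA.1 i
    intro k
    have h := fB1 H hg k
    set r := 1 / ρ with hr
    have m := qmono r1 H.hκ.le H.hκ1 (le_refl 2) (show 1 ≤ 3 by norm_num)
    simp only [pow_one] at m
    linarith
  · refine comp s2 h2 H.e2 ?_ hA.2 i
    intro k
    have h := hs k
    set r := 1 / ρ with hr
    have m := qmono r1 H.hκ.le H.hκ1 (show 0 ≤ 2 by norm_num) (le_refl 1)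
    have p : 0 ≤ r ^ 2 * κ := by have := H.hκ; positivity
    simp only [pow_one, pow_zero, one_mul] at m
    linarith

/-- Case II. -/
theorem fcaseII {ρ κ : ℝ} {t s1 s2 h1 h2 d : Fin 4 → ℝ} {L : Set QElt}
    (H : QHyp ρ κ t s1 s2 h1 h2 d L) (hg : ∀ v ∈ L, |v.ga| ≤ κ ^ 3)
    (hβ : κ < |qC s2 1|) :
    ∃ α c0 b2 : ℝ, |α| ≤ 10000000000 * (1 / ρ) ^ 14 ∧
      (∀ v ∈ L, |v.o2 - α * v.y2 - c0| ≤ 10000000000 * (1 / ρ) ^ 14 * κ) ∧
      ∀ i, |s1 i| ≤ 10000000000 * (1 / ρ) ^ 14 * κ ∧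
        |(1 + α * t i) * s2 i - t i * b2| ≤ 10000000000 * (1 / ρ) ^ 14 * κ := by
  have r1 : 1 ≤ 1 / ρ := by rw [le_div_iff₀ H.hρ]; linarith [H.hρ1]
  obtain ⟨u, hu, v, hv, w, hw, hdet⟩ := H.A1
  have hκ := H.hκ
  set B := qC s2 1 with hB
  have hB0 : B ≠ 0 := by
    intro h; rw [h] at hβ; simp at hβ; linarith
  obtain ⟨a1, ha1⟩ : ∃ a1, a1 = -(qC h1 1) / B := ⟨_, rfl⟩
  obtain ⟨a2, ha2⟩ : ∃ a2, a2 = -(qC h2 1) / B := ⟨_, rfl⟩
  obtain ⟨c0, hc0⟩ : ∃ c0, c0 = -(qC d 1) / B := ⟨_, rfl⟩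
  have hBa1 : B * a1 = -(qC h1 1) := by rw [ha1]; field_simp
  have hBa2 : B * a2 = -(qC h2 1) := by rw [ha2]; field_simp
  have hBc0 : B * c0 = -(qC d 1) := by rw [hc0]; field_simp
  have F1 : ∀ x ∈ L, |x.o2 - a1 * x.y1 - a2 * x.y2 - c0| ≤ 18 * (1 / ρ) ^ 2 * κ ^ 2 := by
    intro x hx
    have h := qabs_div (ρ := κ) (d := B) (y := x.o2 - a1 * x.y1 - a2 * x.y2 - c0)
      hκ hβ.le (x := qC h1 1 * x.y1 + qC h2 1 * x.y2 + qC s2 1 * x.o2 + qC d 1)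
      (by
        rw [← hB]
        linear_combination (-x.y1) * hBa1 + (-x.y2) * hBa2 - hBc0)
      (frel2 H hg 1 x hx)
    have e : 18 * (1 / ρ) ^ 2 * κ ^ 3 / κ = 18 * (1 / ρ) ^ 2 * κ ^ 2 := by
      field_simp
    rw [e] at h
    exact h
  have hy : ∀ x ∈ L, |x.y1 - u.y1| ≤ 2 ∧ |x.y2 - u.y2| ≤ 2 := by
    intro x hx
    constructor
    · have := qabs_sub (H.hL x hx).1 (H.hL u hu).1; linarith
    · have := qabs_sub (H.hL x hx).2.1 (H.hL u hu).2.1; linarith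
  have hbd : |a1| ≤ 4 * (38 * (1 / ρ) ^ 2) / ρ ∧ |a2| ≤ 4 * (38 * (1 / ρ) ^ 2) / ρ := by
    have hdiff : ∀ x ∈ L, |a1 * (x.y1 - u.y1) + a2 * (x.y2 - u.y2)| ≤ 38 * (1 / ρ) ^ 2 := by
      intro x hx
      have ho : |x.o2 - u.o2| ≤ 2 := by
        have := qabs_sub (H.hL x hx).2.2.2 (H.hL u hu).2.2.2; linarith
      have h := qabs_sub ho (qabs_sub (F1 x hx) (F1 u hu))
      have e : x.o2 - u.o2 - (x.o2 - a1 * x.y1 - a2 * x.y2 - c0
        - (u.o2 - a1 * u.y1 - a2 * u.y2 - c0))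
          = a1 * (x.y1 - u.y1) + a2 * (x.y2 - u.y2) := by ring
      rw [e] at h
      set r := 1 / ρ with hr
      have m := qmono r1 H.hκ.le H.hκ1 (le_refl 2) (show 0 ≤ 2 by norm_num)
      have m' : (1 : ℝ) ≤ r ^ 2 := one_le_pow₀ r1
      simp only [pow_zero, mul_one] at m
      linarith
    exact qcramer H.hρ (hdiff v hv) (hdiff w hw) (hy v hv).1 (hy v hv).2 (hy w hw).1
      (hy w hw).2 hdet
  have eA : 4 * (38 * (1 / ρ) ^ 2) / ρ = 152 * (1 / ρ) ^ 3 := by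
    field_simp; ring
  rw [eA] at hbd
  obtain ⟨hba1, hba2⟩ := hbd
  have h3 : ∀ k, |qC h1 k + qC s2 k * a1| ≤ 432 * (1 / ρ) ^ 3 * κ ^ 2 ∧
      |qC h2 k + qC s2 k * a2| ≤ 432 * (1 / ρ) ^ 3 * κ ^ 2 := by
    intro k
    have hrel : ∀ x ∈ L, |(qC h1 k + qC s2 k * a1) * x.y1
        + (qC h2 k + qC s2 k * a2) * x.y2 + (qC d k + qC s2 k * c0)|
          ≤ 54 * (1 / ρ) ^ 2 * κ ^ 2 := by
      intro x hx
      have hB3 := qC_bound s2 k 1 H.hs2
      have h := qabs_sub (frel2 H hg k x hx) (qabs_mul hB3 (F1 x hx))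
      have e : qC h1 k * x.y1 + qC h2 k * x.y2 + qC s2 k * x.o2 + qC d k
        - qC s2 k * (x.o2 - a1 * x.y1 - a2 * x.y2 - c0)
          = (qC h1 k + qC s2 k * a1) * x.y1
        + (qC h2 k + qC s2 k * a2) * x.y2 + (qC d k + qC s2 k * c0) := by ring
      rw [e] at h
      set r := 1 / ρ with hr
      have m := qmono r1 H.hκ.le H.hκ1 (le_refl 2) (show 2 ≤ 3 by norm_num)
      linarith
    have hdiff : ∀ x ∈ L, |(qC h1 k + qC s2 k * a1) * (x.y1 - u.y1)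
        + (qC h2 k + qC s2 k * a2) * (x.y2 - u.y2)| ≤ 108 * (1 / ρ) ^ 2 * κ ^ 2 := by
      intro x hx
      have h := qabs_sub (hrel x hx) (hrel u hu)
      have e : (qC h1 k + qC s2 k * a1) * x.y1
        + (qC h2 k + qC s2 k * a2) * x.y2 + (qC d k + qC s2 k * c0)
        - ((qC h1 k + qC s2 k * a1) * u.y1
        + (qC h2 k + qC s2 k * a2) * u.y2 + (qC d k + qC s2 k * c0))
          = (qC h1 k + qC s2 k * a1) * (x.y1 - u.y1)
        + (qC h2 k + qC s2 k * a2) * (x.y2 - u.y2) := by ring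
      rw [e] at h
      linarith
    have h := qcramer H.hρ (hdiff v hv) (hdiff w hw) (hy v hv).1 (hy v hv).2 (hy w hw).1
      (hy w hw).2 hdet
    have e : 4 * (108 * (1 / ρ) ^ 2 * κ ^ 2) / ρ = 432 * (1 / ρ) ^ 3 * κ ^ 2 := by
      field_simp; ring
    rw [e] at h
    exact h
  obtain ⟨b2, hb2⟩ : ∃ b2, b2 = h2 0 + a2 * s2 0 := ⟨_, rfl⟩
  obtain ⟨U, hU⟩ : ∃ U, U = h1 0 + a1 * s2 0 := ⟨_, rfl⟩
  obtain ⟨b0, hb0⟩ : ∃ b0, b0 = s1 0 := ⟨_, rfl⟩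
  have X : ∀ i : Fin 4, |h2 i + a2 * s2 i - b2| ≤ 432 * (1 / ρ) ^ 3 * κ ^ 2 := by
    intro i
    have h := (h3 i).2
    have e : qC h2 i + qC s2 i * a2 = h2 i + a2 * s2 i - b2 := by
      rw [hb2]; unfold qC; ring
    rw [e] at h; exact h
  have Y : ∀ i : Fin 4, |h1 i + a1 * s2 i - U| ≤ 432 * (1 / ρ) ^ 3 * κ ^ 2 := by
    intro i
    have h := (h3 i).1
    have e : qC h1 i + qC s2 i * a1 = h1 i + a1 * s2 i - U := by
      rw [hU]; unfold qC; ring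
    rw [e] at h; exact h
  have Z : ∀ i : Fin 4, |s1 i - b0| ≤ 14 * (1 / ρ) ^ 2 * κ ^ 3 := by
    intro i
    have h := fB1 H hg i
    have e : qC s1 i = s1 i - b0 := by rw [hb0]; rfl
    rw [e] at h; exact h
  have W : ∀ i : Fin 4, |a1 * (t i * s2 i) - (-b0 + U * t i)|
      ≤ 446 * (1 / ρ) ^ 3 * κ ^ 2 := by
    intro i
    have h := qabs_sub (qabs_mul (H.ht i) (Y i)) (Z i)
    have e : t i * (h1 i + a1 * s2 i - U) - (s1 i - b0)
        = a1 * (t i * s2 i) - (-b0 + U * t i) := by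
      rw [H.e1 i]; ring
    rw [e] at h
    set r := 1 / ρ with hr
    have m := qmono r1 H.hκ.le H.hκ1 (show 2 ≤ 3 by norm_num) (show 2 ≤ 3 by norm_num)
    linarith
  have b1a2 : ∀ i : Fin 4, |1 + a2 * t i| ≤ 153 * (1 / ρ) ^ 3 := by
    intro i
    have h := qabs_add (x := 1) (X := 1) (by simp) (qabs_mul hba2 (H.ht i))
    have m' : (1 : ℝ) ≤ (1 / ρ) ^ 3 := one_le_pow₀ r1
    linarith
  have P : ∀ i : Fin 4, |-b0 + (U - a2 * b0) * t i + (a2 * U - a1 * b2) * t i ^ 2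
      + 0 * t i ^ 3| ≤ 133902 * (1 / ρ) ^ 6 * κ ^ 2 := by
    intro i
    have h := qabs_sub (qabs_mul (qabs_mul hba1 (H.ht i)) (X i)) (qabs_mul (b1a2 i) (W i))
    have h' := qabs_mul (H.ht i) h
    have h := qabs_sub (qabs_mul (qabs_mul hba1 (show |t i ^ 2| ≤ 1 by
      rw [abs_pow]; exact pow_le_one₀ (abs_nonneg _) (H.ht i))) (X i))
      (qabs_mul (b1a2 i) (W i))
    have e : a1 * t i ^ 2 * (h2 i + a2 * s2 i - b2)
        - (1 + a2 * t i) * (a1 * (t i * s2 i) - (-b0 + U * t i))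
        = -b0 + (U - a2 * b0) * t i + (a2 * U - a1 * b2) * t i ^ 2 + 0 * t i ^ 3 := by
      rw [H.e2 i]; ring
    rw [e] at h
    have e2 : 152 * (1 / ρ) ^ 3 * 1 * (432 * (1 / ρ) ^ 3 * κ ^ 2)
        + 153 * (1 / ρ) ^ 3 * (446 * (1 / ρ) ^ 3 * κ ^ 2)
        = 133902 * (1 / ρ) ^ 6 * κ ^ 2 := by ring
    rw [e2] at h
    exact h
  obtain ⟨v0, v1⟩ := qvand H.hρ H.hρ1 (H.ht 0) (H.ht 1) (H.ht 2)
    (H.hd 0 1 (by decide)) (H.hd 0 2 (by decide)) (H.hd 0 3 (by decide))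
    (H.hd 1 2 (by decide)) (H.hd 1 3 (by decide)) (H.hd 2 3 (by decide))
    (P 0) (P 1) (P 2) (P 3)
  have w0 : |b0| ≤ 15934338 * (1 / ρ) ^ 9 * κ ^ 2 := by
    have e : 119 * (133902 * (1 / ρ) ^ 6 * κ ^ 2) / ρ ^ 3
        = 15934338 * (1 / ρ) ^ 9 * κ ^ 2 := by
      field_simp; ring
    rw [e] at v0
    rw [abs_neg] at v0
    exact v0
  have w1 : |U - a2 * b0| ≤ 10979964 * (1 / ρ) ^ 9 * κ ^ 2 := by
    have e : 82 * (133902 * (1 / ρ) ^ 6 * κ ^ 2) / ρ ^ 3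
        = 10979964 * (1 / ρ) ^ 9 * κ ^ 2 := by
      field_simp; ring
    rw [e] at v1
    exact v1
  have w2 : |U| ≤ 2432999340 * (1 / ρ) ^ 12 * κ ^ 2 := by
    have h := qabs_add w1 (qabs_mul hba2 w0)
    have e : U - a2 * b0 + a2 * b0 = U := by ring
    rw [e] at h
    set r := 1 / ρ with hr
    have m := qmono r1 H.hκ.le H.hκ1 (show 9 ≤ 12 by norm_num) (le_refl 2)
    have e2 : 152 * r ^ 3 * (15934338 * r ^ 9 * κ ^ 2) = 2422019376 * (r ^ 12 * κ ^ 2) := by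
      ring
    linarith
  have V : ∀ i : Fin 4, |a1 * s2 i| ≤ 2448934124 * (1 / ρ) ^ 13 * κ ^ 2 := by
    intro i
    have h := qabs_div H.hρ (H.hτ i) (y := a1 * s2 i)
      (x := a1 * (t i * s2 i) - (-b0 + U * t i) - b0 + U * t i) (by ring)
      (qabs_add (qabs_sub (W i) w0) (qabs_mul w2 (H.ht i)))
    refine le_trans h ?_
    rw [div_le_iff₀ H.hρ]
    have e : 2448934124 * (1 / ρ) ^ 13 * κ ^ 2 * ρ
        = 2448934124 * ((1 / ρ) ^ 12 * κ ^ 2) := by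
      have := H.hρ
      field_simp
    rw [e]
    set r := 1 / ρ with hr
    have m := qmono r1 H.hκ.le H.hκ1 (show 9 ≤ 12 by norm_num) (le_refl 2)
    have m' := qmono r1 H.hκ.le H.hκ1 (show 3 ≤ 12 by norm_num) (le_refl 2)
    linarith
  have w3 : |a1| ≤ 2 * 2448934124 * (1 / ρ) ^ 13 * κ := by
    have h := qC_bound (fun i => a1 * s2 i) 1 _ V
    have e : qC (fun i => a1 * s2 i) 1 = B * a1 := by
      rw [hB]; unfold qC; ring
    rw [e] at h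
    have h' := qabs_div (ρ := κ) (d := B) (y := a1) hκ hβ.le rfl h
    have e2 : 2 * (2448934124 * (1 / ρ) ^ 13 * κ ^ 2) / κ
        = 2 * 2448934124 * (1 / ρ) ^ 13 * κ := by
      field_simp
    rw [e2] at h'
    exact h'
  have q14 : (0 : ℝ) ≤ (1 / ρ) ^ 14 * κ := by have := H.hρ; positivity
  refine ⟨a2, c0, b2, ?_, ?_, ?_⟩
  · have m := qmono r1 H.hκ.le H.hκ1 (show 3 ≤ 14 by norm_num) (le_refl 0)
    simp only [pow_zero, mul_one] at m
    have m' : (1 : ℝ) ≤ (1 / ρ) ^ 14 := one_le_pow₀ r1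
    linarith
  · intro x hx
    have h := qabs_add (F1 x hx) (qabs_mul w3 (H.hL x hx).1)
    have e : x.o2 - a1 * x.y1 - a2 * x.y2 - c0 + a1 * x.y1 = x.o2 - a2 * x.y2 - c0 := by ring
    rw [e] at h
    set r := 1 / ρ with hr
    have m := qmono r1 H.hκ.le H.hκ1 (show 2 ≤ 14 by norm_num) (show 1 ≤ 2 by norm_num)
    have m' := qmono r1 H.hκ.le H.hκ1 (show 13 ≤ 14 by norm_num) (le_refl 1)
    simp only [pow_one] at m m'
    linarith
  · intro i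
    constructor
    · have h := qabs_add (Z i) w0
      have e : s1 i - b0 + b0 = s1 i := by ring
      rw [e] at h
      set r := 1 / ρ with hr
      have m := qmono r1 H.hκ.le H.hκ1 (show 2 ≤ 14 by norm_num) (show 1 ≤ 3 by norm_num)
      have m' := qmono r1 H.hκ.le H.hκ1 (show 9 ≤ 14 by norm_num) (show 1 ≤ 2 by norm_num)
      simp only [pow_one] at m m'
      linarith
    · have h := qabs_mul (H.ht i) (X i)
      have e : t i * (h2 i + a2 * s2 i - b2)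
          = (1 + a2 * t i) * s2 i - t i * b2 := by
        rw [H.e2 i]; ring
      rw [e] at h
      set r := 1 / ρ with hr
      have m := qmono r1 H.hκ.le H.hκ1 (show 3 ≤ 14 by norm_num) (show 1 ≤ 2 by norm_num)
      simp only [pow_one] at m
      linarith

/-- **Row QALF.** -/
theorem qalf_thm : QALFStmt := by
  intro ρ hρ hρ1
  have r1 : 1 ≤ 1 / ρ := by rw [le_div_iff₀ hρ]; linarith
  have r0 : 0 < 1 / ρ := by linarith
  refine ⟨10000000000 * (1 / ρ) ^ 14, by positivity, ?_⟩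
  intro κ t s1 s2 c L hκ hκ1 ht hd hs hL hg hr A1 A2
  have H := qhyp_of hρ hρ1 hκ hκ1 ht hd hs hL hr A1 A2
  by_cases h2 : ∃ k, κ < |qC s2 k|
  · right
    obtain ⟨k, hk⟩ := h2
    have hk0 : k ≠ 0 := by
      rintro rfl
      unfold qC at hk; simp at hk; linarith
    have H' := H.swap (Equiv.swap 1 k)
    have e : qC (s2 ∘ (Equiv.swap (1 : Fin 4) k)) 1 = qC s2 k := by
      unfold qC
      simp only [Function.comp, Equiv.swap_apply_left]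
      rw [Equiv.swap_apply_of_ne_of_ne (by decide) hk0.symm]
    obtain ⟨α, c0, b2, x, y, z⟩ := fcaseII H' hg (by rw [e]; exact hk)
    refine ⟨α, c0, b2, x, y, ?_⟩
    intro i
    have := z (Equiv.swap 1 k i)
    simpa only [Function.comp, Equiv.swap_apply_self] using this
  · left
    push Not at h2
    have h := fcaseI H hg h2
    intro i
    have m := qmono r1 hκ.le hκ1 (show 4 ≤ 14 by norm_num) (le_refl 1)
    have p : (0 : ℝ) ≤ (1 / ρ) ^ 14 * κ := by positivity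
    simp only [pow_one] at m
    constructor
    · refine le_trans (h i).1 ?_; linarith
    · refine le_trans (h i).2 ?_; linarith

end Pool.KAL
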