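import Mathlib

/-!
# Structure of the critical identity in quadric frames (row QALG)

`QALGStmt`: if `s_τ · (y + τ ω) + c_τ = τ β + τ² γ` (up to `κ ^ 3`) holds at four times for all
elements `(y, ω, β, γ)` of a context which contains three elements with non collinear `y` and two
elements with the same `y` whose velocities differ in the first coordinate, then either `s_τ = τ b`,
or the velocities satisfy `ω₂ = α y₂ + c₀` and `(1 + α τ) s_τ` is quadratic in `τ`.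
-/

set_option autoImplicit false

namespace Pool.KAL

/-- A line of the context: position `y`, velocity `o`, and the coefficients `be`, `ga` of the
displacement of its label. -/
structure QElt where
  y1 : ℝ
  y2 : ℝ
  o1 : ℝ
  o2 : ℝ
  be : ℝ
  ga : ℝ

/-- Structure of the critical identity. -/
def QALGStmt : Prop :=
  ∀ ρ : ℝ, 0 < ρ → ρ ≤ 1 → ∃ C : ℝ, 0 < C ∧
    ∀ (κ : ℝ) (t s1 s2 c : Fin 4 → ℝ) (L : Set QElt), 0 < κ → κ ≤ 1 →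
      (∀ i, |t i| ≤ 1 ∧ ρ ≤ |t i|) → (∀ i j, i ≠ j → ρ ≤ |t i - t j|) →
      (∀ i, |s1 i| ≤ 1 ∧ |s2 i| ≤ 1) →
      (∀ v ∈ L, |v.y1| ≤ 1 ∧ |v.y2| ≤ 1 ∧ |v.o1| ≤ 1 ∧ |v.o2| ≤ 1) →
      (∀ v ∈ L, ∀ i, |s1 i * (v.y1 + t i * v.o1) + s2 i * (v.y2 + t i * v.o2) + c i
        - t i * v.be - t i ^ 2 * v.ga| ≤ κ ^ 3) →
      (∃ u ∈ L, ∃ v ∈ L, ∃ w ∈ L,
        ρ ≤ |(v.y1 - u.y1) * (w.y2 - u.y2) - (v.y2 - u.y2) * (w.y1 - u.y1)|) →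
      (∃ v ∈ L, ∃ w ∈ L, |v.y1 - w.y1| ≤ κ ^ 3 ∧ |v.y2 - w.y2| ≤ κ ^ 3 ∧
        |v.o2 - w.o2| ≤ κ ^ 3 ∧ ρ ≤ |v.o1 - w.o1|) →
      (∃ b1 b2 : ℝ, ∀ i, |s1 i - t i * b1| ≤ C * κ ∧ |s2 i - t i * b2| ≤ C * κ) ∨
      (∃ α c0 b1 b2 β : ℝ, |α| ≤ C ∧ (∀ v ∈ L, |v.o2 - α * v.y2 - c0| ≤ C * κ) ∧
        ∀ i, |s1 i - t i * b1| ≤ C * κ ∧
          |(1 + α * t i) * s2 i - t i * b2 - t i ^ 2 * β| ≤ C * κ)

/-- The same when the labels move linearly (flat case): there are only two unknown constants. -/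
def QALFStmt : Prop :=
  ∀ ρ : ℝ, 0 < ρ → ρ ≤ 1 → ∃ C : ℝ, 0 < C ∧
    ∀ (κ : ℝ) (t s1 s2 c : Fin 4 → ℝ) (L : Set QElt), 0 < κ → κ ≤ 1 →
      (∀ i, |t i| ≤ 1 ∧ ρ ≤ |t i|) → (∀ i j, i ≠ j → ρ ≤ |t i - t j|) →
      (∀ i, |s1 i| ≤ 1 ∧ |s2 i| ≤ 1) →
      (∀ v ∈ L, |v.y1| ≤ 1 ∧ |v.y2| ≤ 1 ∧ |v.o1| ≤ 1 ∧ |v.o2| ≤ 1) →
      (∀ v ∈ L, |v.ga| ≤ κ ^ 3) →
      (∀ v ∈ L, ∀ i, |s1 i * (v.y1 + t i * v.o1) + s2 i * (v.y2 + t i * v.o2) + c i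
        - t i * v.be - t i ^ 2 * v.ga| ≤ κ ^ 3) →
      (∃ u ∈ L, ∃ v ∈ L, ∃ w ∈ L,
        ρ ≤ |(v.y1 - u.y1) * (w.y2 - u.y2) - (v.y2 - u.y2) * (w.y1 - u.y1)|) →
      (∃ v ∈ L, ∃ w ∈ L, |v.y1 - w.y1| ≤ κ ^ 3 ∧ |v.y2 - w.y2| ≤ κ ^ 3 ∧
        |v.o2 - w.o2| ≤ κ ^ 3 ∧ ρ ≤ |v.o1 - w.o1|) →
      (∀ i, |s1 i| ≤ C * κ ∧ |s2 i| ≤ C * κ) ∨
      (∃ α c0 b2 : ℝ, |α| ≤ C ∧ (∀ v ∈ L, |v.o2 - α * v.y2 - c0| ≤ C * κ) ∧
        ∀ i, |s1 i| ≤ C * κ ∧ |(1 + α * t i) * s2 i - t i * b2| ≤ C * κ)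

/-! ## Elementary bounds -/

theorem qabs_mul {x y X Y : ℝ} (hx : |x| ≤ X) (hy : |y| ≤ Y) : |x * y| ≤ X * Y := by
  rw [abs_mul]
  exact mul_le_mul hx hy (abs_nonneg _) (le_trans (abs_nonneg _) hx)

theorem qabs_add {x y X Y : ℝ} (hx : |x| ≤ X) (hy : |y| ≤ Y) : |x + y| ≤ X + Y :=
  le_trans (abs_add_le _ _) (add_le_add hx hy)

theorem qabs_sub {x y X Y : ℝ} (hx : |x| ≤ X) (hy : |y| ≤ Y) : |x - y| ≤ X + Y :=
  le_trans (abs_sub _ _) (add_le_add hx hy)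

theorem qabs_div {ρ d y x M : ℝ} (hρ : 0 < ρ) (hd : ρ ≤ |d|) (h : d * y = x) (hx : |x| ≤ M) :
    |y| ≤ M / ρ := by
  rw [le_div_iff₀ hρ]
  have h1 : |d| * |y| = |x| := by rw [← abs_mul, h]
  nlinarith [abs_nonneg y]

/-- Cramer's rule. -/
theorem qcramer {ρ a1 a2 p1 p2 q1 q2 M : ℝ} (hρ : 0 < ρ)
    (h1 : |a1 * p1 + a2 * p2| ≤ M) (h2 : |a1 * q1 + a2 * q2| ≤ M)
    (hp1 : |p1| ≤ 2) (hp2 : |p2| ≤ 2) (hq1 : |q1| ≤ 2) (hq2 : |q2| ≤ 2)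
    (hd : ρ ≤ |p1 * q2 - p2 * q1|) : |a1| ≤ 4 * M / ρ ∧ |a2| ≤ 4 * M / ρ := by
  constructor
  · refine qabs_div hρ hd (x := (a1 * p1 + a2 * p2) * q2 - (a1 * q1 + a2 * q2) * p2) (by ring) ?_
    have := qabs_sub (qabs_mul h1 hq2) (qabs_mul h2 hp2)
    linarith
  · refine qabs_div hρ hd (x := (a1 * q1 + a2 * q2) * p1 - (a1 * p1 + a2 * p2) * q1) (by ring) ?_
    have := qabs_sub (qabs_mul h2 hp1) (qabs_mul h1 hq1)
    linarith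

/-- The second difference with nodes `t0, t1, tk`. -/
def qE (t0 t1 tk g0 g1 gk : ℝ) : ℝ := (t1 - t0) * gk - (t1 - tk) * g0 - (tk - t0) * g1

theorem qE_bound {t0 t1 tk g0 g1 gk M : ℝ} (h0 : |t0| ≤ 1) (h1 : |t1| ≤ 1) (hk : |tk| ≤ 1)
    (hg0 : |g0| ≤ M) (hg1 : |g1| ≤ M) (hgk : |gk| ≤ M) : |qE t0 t1 tk g0 g1 gk| ≤ 6 * M := by
  unfold qE
  have a1 : |t1 - t0| ≤ 2 := by have := qabs_sub h1 h0; linarith
  have a2 : |t1 - tk| ≤ 2 := by have := qabs_sub h1 hk; linarith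
  have a3 : |tk - t0| ≤ 2 := by have := qabs_sub hk h0; linarith
  have := qabs_sub (qabs_sub (qabs_mul a1 hgk) (qabs_mul a2 hg0)) (qabs_mul a3 hg1)
  linarith

/-- Four values of a cubic polynomial bound its coefficients. -/
theorem qvand {ρ t0 t1 t2 t3 a0 a1 a2 a3 e : ℝ} (hρ : 0 < ρ) (hρ1 : ρ ≤ 1)
    (ht0 : |t0| ≤ 1) (ht1 : |t1| ≤ 1) (ht2 : |t2| ≤ 1)
    (h01 : ρ ≤ |t0 - t1|) (h02 : ρ ≤ |t0 - t2|) (h03 : ρ ≤ |t0 - t3|)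
    (h12 : ρ ≤ |t1 - t2|) (h13 : ρ ≤ |t1 - t3|) (h23 : ρ ≤ |t2 - t3|)
    (P0 : |a0 + a1 * t0 + a2 * t0 ^ 2 + a3 * t0 ^ 3| ≤ e)
    (P1 : |a0 + a1 * t1 + a2 * t1 ^ 2 + a3 * t1 ^ 3| ≤ e)
    (P2 : |a0 + a1 * t2 + a2 * t2 ^ 2 + a3 * t2 ^ 3| ≤ e)
    (P3 : |a0 + a1 * t3 + a2 * t3 ^ 2 + a3 * t3 ^ 3| ≤ e) :
    |a0| ≤ 119 * e / ρ ^ 3 ∧ |a1| ≤ 82 * e / ρ ^ 3 := by
  have he : 0 ≤ e := le_trans (abs_nonneg _) P0
  have d01 : |a1 + a2 * (t0 + t1) + a3 * (t0 ^ 2 + t0 * t1 + t1 ^ 2)| ≤ (e + e) / ρ :=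
    qabs_div hρ h01 (by ring) (qabs_sub P0 P1)
  have d12 : |a1 + a2 * (t1 + t2) + a3 * (t1 ^ 2 + t1 * t2 + t2 ^ 2)| ≤ (e + e) / ρ :=
    qabs_div hρ h12 (by ring) (qabs_sub P1 P2)
  have d23 : |a1 + a2 * (t2 + t3) + a3 * (t2 ^ 2 + t2 * t3 + t3 ^ 2)| ≤ (e + e) / ρ :=
    qabs_div hρ h23 (by ring) (qabs_sub P2 P3)
  have d012 : |a2 + a3 * (t0 + t1 + t2)| ≤ ((e + e) / ρ + (e + e) / ρ) / ρ :=
    qabs_div hρ h02 (by ring) (qabs_sub d01 d12)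
  have d123 : |a2 + a3 * (t1 + t2 + t3)| ≤ ((e + e) / ρ + (e + e) / ρ) / ρ :=
    qabs_div hρ h13 (by ring) (qabs_sub d12 d23)
  have d0123 : |a3| ≤ (((e + e) / ρ + (e + e) / ρ) / ρ + ((e + e) / ρ + (e + e) / ρ) / ρ) / ρ :=
    qabs_div hρ h03 (by ring) (qabs_sub d012 d123)
  have r1 : 1 ≤ 1 / ρ := by rw [le_div_iff₀ hρ]; linarith
  set r : ℝ := 1 / ρ with hr
  have e3 : |a3| ≤ 8 * e * r ^ 3 := by
    refine le_trans d0123 (le_of_eq ?_); rw [hr]; field_simp; ring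
  have e012 : |a2 + a3 * (t0 + t1 + t2)| ≤ 4 * e * r ^ 2 := by
    refine le_trans d012 (le_of_eq ?_); rw [hr]; field_simp; ring
  have e01 : |a1 + a2 * (t0 + t1) + a3 * (t0 ^ 2 + t0 * t1 + t1 ^ 2)| ≤ 2 * e * r := by
    refine le_trans d01 (le_of_eq ?_); rw [hr]; field_simp; ring
  have r0 : 0 ≤ r := by linarith
  have m2 : e * r ^ 2 ≤ e * r ^ 3 :=
    mul_le_mul_of_nonneg_left (pow_le_pow_right₀ r1 (by norm_num)) he
  have m1 : e * r ≤ e * r ^ 3 :=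
    mul_le_mul_of_nonneg_left (by simpa using pow_le_pow_right₀ r1 (show 1 ≤ 3 by norm_num)) he
  have m0 : e ≤ e * r ^ 3 := by
    simpa using mul_le_mul_of_nonneg_left (one_le_pow₀ r1 : (1 : ℝ) ≤ r ^ 3) he
  have b3 : |t0 + t1 + t2| ≤ 3 := by
    have := qabs_add (qabs_add ht0 ht1) ht2; linarith
  have b2 : |t0 + t1| ≤ 2 := by have := qabs_add ht0 ht1; linarith
  have sq : ∀ {x : ℝ}, |x| ≤ 1 → |x ^ 2| ≤ 1 := fun {x} hx => by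
    rw [abs_pow]; exact pow_le_one₀ (abs_nonneg _) hx
  have cu : ∀ {x : ℝ}, |x| ≤ 1 → |x ^ 3| ≤ 1 := fun {x} hx => by
    rw [abs_pow]; exact pow_le_one₀ (abs_nonneg _) hx
  have b4 : |t0 ^ 2 + t0 * t1 + t1 ^ 2| ≤ 3 := by
    have := qabs_add (qabs_add (sq ht0) (qabs_mul ht0 ht1)) (sq ht1); linarith
  have e2 : |a2| ≤ 28 * e * r ^ 3 := by
    have h : a2 = (a2 + a3 * (t0 + t1 + t2)) - a3 * (t0 + t1 + t2) := by ring
    rw [h]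
    refine le_trans (qabs_sub e012 (qabs_mul e3 b3)) ?_
    linarith
  have e1 : |a1| ≤ 82 * e * r ^ 3 := by
    have h : a1 = (a1 + a2 * (t0 + t1) + a3 * (t0 ^ 2 + t0 * t1 + t1 ^ 2)) - a2 * (t0 + t1)
      - a3 * (t0 ^ 2 + t0 * t1 + t1 ^ 2) := by ring
    rw [h]
    refine le_trans (qabs_sub (qabs_sub e01 (qabs_mul e2 b2)) (qabs_mul e3 b4)) ?_
    linarith
  have e0 : |a0| ≤ 119 * e * r ^ 3 := by
    have h : a0 = (a0 + a1 * t0 + a2 * t0 ^ 2 + a3 * t0 ^ 3) - a1 * t0 - a2 * t0 ^ 2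
      - a3 * t0 ^ 3 := by ring
    rw [h]
    refine le_trans (qabs_sub (qabs_sub (qabs_sub P0 (qabs_mul e1 ht0)) (qabs_mul e2 (sq ht0)))
      (qabs_mul e3 (cu ht0))) ?_
    linarith
  constructor
  · refine le_trans e0 (le_of_eq ?_); rw [hr]; field_simp
  · refine le_trans e1 (le_of_eq ?_); rw [hr]; field_simp

theorem qmono {r κ : ℝ} (r1 : 1 ≤ r) (k0 : 0 ≤ κ) (k1 : κ ≤ 1) {m m' j j' : ℕ} (hm : m ≤ m')
    (hj : j' ≤ j) : r ^ m * κ ^ j ≤ r ^ m' * κ ^ j' :=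
  mul_le_mul (pow_le_pow_right₀ r1 hm) (pow_le_pow_of_le_one k0 k1 hj) (by positivity)
    (by positivity)

/-- Interpolation by an affine function at two nodes. -/
theorem qint {ρ t0 t1 : ℝ} (hρ : 0 < ρ) (h01 : ρ ≤ |t1 - t0|) (g0 g1 : ℝ) :
    ∃ n m : ℝ, g0 = n + m * t0 ∧ g1 = n + m * t1 ∧ ∀ tk gk : ℝ, ∀ e : ℝ,
      |qE t0 t1 tk g0 g1 gk| ≤ e → |gk - n - m * tk| ≤ e / ρ := by
  have hd : t1 - t0 ≠ 0 := by
    intro h; rw [h] at h01; simp at h01; linarith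
  refine ⟨g0 - (g1 - g0) / (t1 - t0) * t0, (g1 - g0) / (t1 - t0), by ring, ?_, ?_⟩
  · field_simp; ring
  · intro tk gk e he
    refine qabs_div hρ h01 (x := qE t0 t1 tk g0 g1 gk) ?_ he
    unfold qE; field_simp; ring

/-- A function `t * h` such that both `h` and `t * h` are nearly affine is nearly linear. -/
theorem qlin {ρ t0 t1 t2 t3 h0 h1 h2 h3 e : ℝ} (hρ : 0 < ρ) (hρ1 : ρ ≤ 1)
    (ht0 : |t0| ≤ 1) (ht1 : |t1| ≤ 1)
    (h01 : ρ ≤ |t1 - t0|) (h02 : ρ ≤ |t2 - t0|) (h12 : ρ ≤ |t1 - t2|)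
    (E2 : |qE t0 t1 t2 h0 h1 h2| ≤ e)
    (F2 : |qE t0 t1 t2 (t0 * h0) (t1 * h1) (t2 * h2)| ≤ e)
    (ht2 : |t2| ≤ 1)
    (F3 : |qE t0 t1 t3 (t0 * h0) (t1 * h1) (t3 * h3)| ≤ e) :
    ∃ b : ℝ, |t0 * h0 - t0 * b| ≤ 3 * e / ρ ^ 3 ∧ |t1 * h1 - t1 * b| ≤ 3 * e / ρ ^ 3 ∧
      |t2 * h2 - t2 * b| ≤ 3 * e / ρ ^ 3 ∧ |t3 * h3 - t3 * b| ≤ 3 * e / ρ ^ 3 := by
  have he : 0 ≤ e := le_trans (abs_nonneg _) E2
  obtain ⟨n, m, hn0, hn1, hk⟩ := qint hρ h01 (t0 * h0) (t1 * h1)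
  have hh : |h1 - h0| ≤ (e + e) / ρ / ρ := by
    refine qabs_div hρ h02 (x := (t2 - t0) * (h1 - h0)) rfl ?_
    refine qabs_div hρ h12 (x := t2 * qE t0 t1 t2 h0 h1 h2
      - qE t0 t1 t2 (t0 * h0) (t1 * h1) (t2 * h2)) ?_ ?_
    · unfold qE; ring
    · have := qabs_sub (qabs_mul ht2 E2) F2
      linarith
  have hn : |n| ≤ (e + e) / ρ / ρ / ρ := by
    refine qabs_div hρ h01 (x := (t0 * t1) * (h0 - h1)) ?_ ?_
    · have : n = t0 * h0 - m * t0 := by linarith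
      have hm : m * (t1 - t0) = t1 * h1 - t0 * h0 := by linarith
      have : (t1 - t0) * n = (t1 - t0) * (t0 * h0) - (m * (t1 - t0)) * t0 := by rw [this]; ring
      rw [this, hm]; ring
    · have h3 : |h0 - h1| ≤ (e + e) / ρ / ρ := by rw [abs_sub_comm]; exact hh
      have := qabs_mul (qabs_mul ht0 ht1) h3
      simpa using this
  have r1 : 1 ≤ 1 / ρ := by rw [le_div_iff₀ hρ]; linarith
  have k1 : (e + e) / ρ / ρ / ρ = 2 * e / ρ ^ 3 := by field_simp; ring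
  have k2 : e / ρ ≤ e / ρ ^ 3 := by
    apply div_le_div_of_nonneg_left he (by positivity)
    calc ρ ^ 3 ≤ ρ ^ 1 := pow_le_pow_of_le_one hρ.le hρ1 (by norm_num)
      _ = ρ := pow_one ρ
  have k3 : 2 * e / ρ ^ 3 = 2 * (e / ρ ^ 3) := by ring
  have k4 : 3 * e / ρ ^ 3 = 3 * (e / ρ ^ 3) := by ring
  have k5 : 0 ≤ e / ρ ^ 3 := by positivity
  rw [k1, k3] at hn
  refine ⟨m, ?_, ?_, ?_, ?_⟩
  · have : t0 * h0 - t0 * m = n := by linarith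
    rw [this, k4]; linarith
  · have : t1 * h1 - t1 * m = n := by linarith
    rw [this, k4]; linarith
  · have h := qabs_add (hk t2 (t2 * h2) e F2) hn
    have : t2 * h2 - t2 * m = t2 * h2 - n - m * t2 + n := by ring
    rw [this, k4]; linarith
  · have h := qabs_add (hk t3 (t3 * h3) e F3) hn
    have : t3 * h3 - t3 * m = t3 * h3 - n - m * t3 + n := by ring
    rw [this, k4]; linarith

/-- The hypotheses common to all statements, with `r = 1 / ρ` and the divided functions. -/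
structure QHyp (ρ κ : ℝ) (t s1 s2 h1 h2 d : Fin 4 → ℝ) (L : Set QElt) : Prop where
  hρ : 0 < ρ
  hρ1 : ρ ≤ 1
  hκ : 0 < κ
  hκ1 : κ ≤ 1
  ht : ∀ i, |t i| ≤ 1
  hτ : ∀ i, ρ ≤ |t i|
  hd : ∀ i j, i ≠ j → ρ ≤ |t i - t j|
  hs1 : ∀ i, |s1 i| ≤ 1
  hs2 : ∀ i, |s2 i| ≤ 1
  e1 : ∀ i, s1 i = t i * h1 i
  e2 : ∀ i, s2 i = t i * h2 i
  b1 : ∀ i, |h1 i| ≤ 1 / ρ
  b2 : ∀ i, |h2 i| ≤ 1 / ρ
  hL : ∀ v ∈ L, |v.y1| ≤ 1 ∧ |v.y2| ≤ 1 ∧ |v.o1| ≤ 1 ∧ |v.o2| ≤ 1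
  hr : ∀ v ∈ L, ∀ i, |h1 i * v.y1 + s1 i * v.o1 + (h2 i * v.y2 + s2 i * v.o2) + d i
    - v.be - t i * v.ga| ≤ 1 / ρ * κ ^ 3
  A1 : ∃ u ∈ L, ∃ v ∈ L, ∃ w ∈ L,
    ρ ≤ |(v.y1 - u.y1) * (w.y2 - u.y2) - (v.y2 - u.y2) * (w.y1 - u.y1)|
  A2 : ∃ v ∈ L, ∃ w ∈ L, |v.y1 - w.y1| ≤ κ ^ 3 ∧ |v.y2 - w.y2| ≤ κ ^ 3 ∧
    |v.o2 - w.o2| ≤ κ ^ 3 ∧ ρ ≤ |v.o1 - w.o1|

/-- The second difference of a function on the nodes `0, 1, k`. -/
def qD (t g : Fin 4 → ℝ) (k : Fin 4) : ℝ := qE (t 0) (t 1) (t k) (g 0) (g 1) (g k)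

theorem qD_bound {ρ κ : ℝ} {t s1 s2 h1 h2 d : Fin 4 → ℝ} {L : Set QElt}
    (H : QHyp ρ κ t s1 s2 h1 h2 d L) (g : Fin 4 → ℝ) (k : Fin 4) (M : ℝ) (hg : ∀ i, |g i| ≤ M) :
    |qD t g k| ≤ 6 * M := qE_bound (H.ht 0) (H.ht 1) (H.ht k) (hg 0) (hg 1) (hg k)

/-- The linear relation satisfied by all elements. -/
theorem qrel {ρ κ : ℝ} {t s1 s2 h1 h2 d : Fin 4 → ℝ} {L : Set QElt}
    (H : QHyp ρ κ t s1 s2 h1 h2 d L) (k : Fin 4) (v : QElt) (hv : v ∈ L) :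
    |qD t h1 k * v.y1 + qD t h2 k * v.y2 + qD t s1 k * v.o1 + qD t s2 k * v.o2 + qD t d k|
      ≤ 6 * (1 / ρ) * κ ^ 3 := by
  have h := qD_bound H (fun i => h1 i * v.y1 + s1 i * v.o1 + (h2 i * v.y2 + s2 i * v.o2) + d i
    - v.be - t i * v.ga) k (1 / ρ * κ ^ 3) (H.hr v hv)
  have e : qD t (fun i => h1 i * v.y1 + s1 i * v.o1 + (h2 i * v.y2 + s2 i * v.o2) + d i
    - v.be - t i * v.ga) k = qD t h1 k * v.y1 + qD t h2 k * v.y2 + qD t s1 k * v.o1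
      + qD t s2 k * v.o2 + qD t d k := by
    unfold qD qE; ring
  rw [e] at h
  linarith

theorem qB1 {ρ κ : ℝ} {t s1 s2 h1 h2 d : Fin 4 → ℝ} {L : Set QElt}
    (H : QHyp ρ κ t s1 s2 h1 h2 d L) (k : Fin 4) :
    |qD t s1 k| ≤ 30 * (1 / ρ) ^ 2 * κ ^ 3 := by
  obtain ⟨v, hv, w, hw, hy1, hy2, ho2, ho1⟩ := H.A2
  have rv := qrel H k v hv
  have rw' := qrel H k w hw
  have hA1 := qD_bound H h1 k (1 / ρ) H.b1
  have hA2 := qD_bound H h2 k (1 / ρ) H.b2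
  have hB2 := qD_bound H s2 k 1 H.hs2
  have r1 : 1 ≤ 1 / ρ := by rw [le_div_iff₀ H.hρ]; linarith [H.hρ1]
  set r := 1 / ρ with hr
  have key : |qD t s1 k| ≤ (30 * r * κ ^ 3) / ρ := by
    refine qabs_div H.hρ ho1 (x := (qD t h1 k * v.y1 + qD t h2 k * v.y2 + qD t s1 k * v.o1
      + qD t s2 k * v.o2 + qD t d k) - (qD t h1 k * w.y1 + qD t h2 k * w.y2 + qD t s1 k * w.o1
      + qD t s2 k * w.o2 + qD t d k) - qD t h1 k * (v.y1 - w.y1) - qD t h2 k * (v.y2 - w.y2)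
      - qD t s2 k * (v.o2 - w.o2)) (by ring) ?_
    have := qabs_sub (qabs_sub (qabs_sub (qabs_sub rv rw') (qabs_mul hA1 hy1))
      (qabs_mul hA2 hy2)) (qabs_mul hB2 ho2)
    have m := qmono r1 H.hκ.le H.hκ1 (show 0 ≤ 1 by norm_num) (le_refl 3)
    simp only [pow_zero, one_mul, pow_one] at m
    linarith
  have e : (30 * r * κ ^ 3) / ρ = 30 * r ^ 2 * κ ^ 3 := by rw [hr]; field_simp
  rw [e] at key
  exact key

/-- The relation without the first velocity component. -/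
theorem qrel2 {ρ κ : ℝ} {t s1 s2 h1 h2 d : Fin 4 → ℝ} {L : Set QElt}
    (H : QHyp ρ κ t s1 s2 h1 h2 d L) (k : Fin 4) (v : QElt) (hv : v ∈ L) :
    |qD t h1 k * v.y1 + qD t h2 k * v.y2 + qD t s2 k * v.o2 + qD t d k|
      ≤ 36 * (1 / ρ) ^ 2 * κ ^ 3 := by
  have r1 : 1 ≤ 1 / ρ := by rw [le_div_iff₀ H.hρ]; linarith [H.hρ1]
  have h := qabs_sub (qrel H k v hv) (qabs_mul (qB1 H k) (H.hL v hv).2.2.1)
  have e : qD t h1 k * v.y1 + qD t h2 k * v.y2 + qD t s1 k * v.o1 + qD t s2 k * v.o2 + qD t d k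
    - qD t s1 k * v.o1 = qD t h1 k * v.y1 + qD t h2 k * v.y2 + qD t s2 k * v.o2 + qD t d k := by
    ring
  rw [e] at h
  set r := 1 / ρ with hr
  have m := qmono r1 H.hκ.le H.hκ1 (show 1 ≤ 2 by norm_num) (le_refl 3)
  simp only [pow_one] at m
  linarith

/-- Case I. -/
theorem qcaseI {ρ κ : ℝ} {t s1 s2 h1 h2 d : Fin 4 → ℝ} {L : Set QElt}
    (H : QHyp ρ κ t s1 s2 h1 h2 d L) (h2s : |qD t s2 2| ≤ κ) (h3s : |qD t s2 3| ≤ κ) :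
    ∃ b1 b2 : ℝ, ∀ i, |s1 i - t i * b1| ≤ 888 * (1 / ρ) ^ 6 * κ ∧
      |s2 i - t i * b2| ≤ 888 * (1 / ρ) ^ 6 * κ := by
  have r1 : 1 ≤ 1 / ρ := by rw [le_div_iff₀ H.hρ]; linarith [H.hρ1]
  obtain ⟨u, hu, v, hv, w, hw, hdet⟩ := H.A1
  have hA : |qD t h1 2| ≤ 4 * (74 * (1 / ρ) ^ 2 * κ) / ρ ∧
      |qD t h2 2| ≤ 4 * (74 * (1 / ρ) ^ 2 * κ) / ρ := by
    have hdiff : ∀ x ∈ L, |qD t h1 2 * (x.y1 - u.y1) + qD t h2 2 * (x.y2 - u.y2)|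
        ≤ 74 * (1 / ρ) ^ 2 * κ := by
      intro x hx
      have ho : |x.o2 - u.o2| ≤ 2 := by
        have := qabs_sub (H.hL x hx).2.2.2 (H.hL u hu).2.2.2; linarith
      have h := qabs_sub (qabs_sub (qrel2 H 2 x hx) (qrel2 H 2 u hu)) (qabs_mul h2s ho)
      have e : qD t h1 2 * x.y1 + qD t h2 2 * x.y2 + qD t s2 2 * x.o2 + qD t d 2
        - (qD t h1 2 * u.y1 + qD t h2 2 * u.y2 + qD t s2 2 * u.o2 + qD t d 2)
        - qD t s2 2 * (x.o2 - u.o2)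
          = qD t h1 2 * (x.y1 - u.y1) + qD t h2 2 * (x.y2 - u.y2) := by ring
      rw [e] at h
      set r := 1 / ρ with hr
      have m := qmono r1 H.hκ.le H.hκ1 (le_refl 2) (show 1 ≤ 3 by norm_num)
      have m' := qmono r1 H.hκ.le H.hκ1 (show 0 ≤ 2 by norm_num) (le_refl 1)
      simp only [pow_one, pow_zero, one_mul] at m m'
      linarith
    have hy : ∀ x ∈ L, |x.y1 - u.y1| ≤ 2 ∧ |x.y2 - u.y2| ≤ 2 := by
      intro x hx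
      constructor
      · have := qabs_sub (H.hL x hx).1 (H.hL u hu).1; linarith
      · have := qabs_sub (H.hL x hx).2.1 (H.hL u hu).2.1; linarith
    exact qcramer H.hρ (hdiff v hv) (hdiff w hw) (hy v hv).1 (hy v hv).2 (hy w hw).1
      (hy w hw).2 hdet
  have eA : 4 * (74 * (1 / ρ) ^ 2 * κ) / ρ = 296 * (1 / ρ) ^ 3 * κ := by
    field_simp; ring
  rw [eA] at hA
  have hs1 : ∀ k, |qD t s1 k| ≤ 296 * (1 / ρ) ^ 3 * κ := by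
    intro k
    have h := qB1 H k
    set r := 1 / ρ with hr
    have m := qmono r1 H.hκ.le H.hκ1 (show 2 ≤ 3 by norm_num) (show 1 ≤ 3 by norm_num)
    have p : 0 ≤ r ^ 3 * κ := by have := H.hκ; positivity
    simp only [pow_one] at m
    linarith
  have hs2 : ∀ k : Fin 4, |qD t s2 k| ≤ κ → |qD t s2 k| ≤ 296 * (1 / ρ) ^ 3 * κ := by
    intro k h
    set r := 1 / ρ with hr
    have m := qmono r1 H.hκ.le H.hκ1 (show 0 ≤ 3 by norm_num) (le_refl 1)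
    have p : 0 ≤ r ^ 3 * κ := by have := H.hκ; positivity
    simp only [pow_one, pow_zero, one_mul] at m
    linarith
  have d01 : ρ ≤ |t 1 - t 0| := H.hd 1 0 (by decide)
  have d02 : ρ ≤ |t 2 - t 0| := H.hd 2 0 (by decide)
  have d12 : ρ ≤ |t 1 - t 2| := H.hd 1 2 (by decide)
  have F : ∀ k, qE (t 0) (t 1) (t k) (t 0 * h1 0) (t 1 * h1 1) (t k * h1 k) = qD t s1 k := by
    intro k; unfold qD; rw [H.e1 0, H.e1 1, H.e1 k]
  have G : ∀ k, qE (t 0) (t 1) (t k) (t 0 * h2 0) (t 1 * h2 1) (t k * h2 k) = qD t s2 k := by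
    intro k; unfold qD; rw [H.e2 0, H.e2 1, H.e2 k]
  obtain ⟨b1, x0, x1, x2, x3⟩ := qlin (t3 := t 3) (h3 := h1 3) H.hρ H.hρ1 (H.ht 0) (H.ht 1)
    d01 d02 d12 hA.1 (by rw [F 2]; exact hs1 2) (H.ht 2) (by rw [F 3]; exact hs1 3)
  obtain ⟨b2, z0, z1, z2, z3⟩ := qlin (t3 := t 3) (h3 := h2 3) H.hρ H.hρ1 (H.ht 0) (H.ht 1)
    d01 d02 d12 hA.2 (by rw [G 2]; exact hs2 2 h2s) (H.ht 2) (by rw [G 3]; exact hs2 3 h3s)
  have eC : 3 * (296 * (1 / ρ) ^ 3 * κ) / ρ ^ 3 = 888 * (1 / ρ) ^ 6 * κ := by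
    field_simp; ring
  rw [eC] at x0 x1 x2 x3 z0 z1 z2 z3
  refine ⟨b1, b2, ?_⟩
  intro i
  rw [H.e1 i, H.e2 i]
  fin_cases i
  · exact ⟨x0, z0⟩
  · exact ⟨x1, z1⟩
  · exact ⟨x2, z2⟩
  · exact ⟨x3, z3⟩

/-- Case II. -/
theorem qcaseII {ρ κ : ℝ} {t s1 s2 h1 h2 d : Fin 4 → ℝ} {L : Set QElt}
    (H : QHyp ρ κ t s1 s2 h1 h2 d L) (hβ : κ < |qD t s2 2|) :
    ∃ α c0 b1 b2 β : ℝ, |α| ≤ 300000000000 * (1 / ρ) ^ 14 ∧
      (∀ v ∈ L, |v.o2 - α * v.y2 - c0| ≤ 300000000000 * (1 / ρ) ^ 14 * κ) ∧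
      ∀ i, |s1 i - t i * b1| ≤ 300000000000 * (1 / ρ) ^ 14 * κ ∧
        |(1 + α * t i) * s2 i - t i * b2 - t i ^ 2 * β| ≤ 300000000000 * (1 / ρ) ^ 14 * κ := by
  have r1 : 1 ≤ 1 / ρ := by rw [le_div_iff₀ H.hρ]; linarith [H.hρ1]
  obtain ⟨u, hu, v, hv, w, hw, hdet⟩ := H.A1
  have hκ := H.hκ
  set B := qD t s2 2 with hB
  have hB0 : B ≠ 0 := by
    intro h; rw [h] at hβ; simp at hβ; linarith
  obtain ⟨a1, ha1⟩ : ∃ a1, a1 = -(qD t h1 2) / B := ⟨_, rfl⟩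
  obtain ⟨a2, ha2⟩ : ∃ a2, a2 = -(qD t h2 2) / B := ⟨_, rfl⟩
  obtain ⟨c0, hc0⟩ : ∃ c0, c0 = -(qD t d 2) / B := ⟨_, rfl⟩
  have hBa1 : B * a1 = -(qD t h1 2) := by rw [ha1]; field_simp
  have hBa2 : B * a2 = -(qD t h2 2) := by rw [ha2]; field_simp
  have hBc0 : B * c0 = -(qD t d 2) := by rw [hc0]; field_simp
  -- the relation
  have F1 : ∀ x ∈ L, |x.o2 - a1 * x.y1 - a2 * x.y2 - c0| ≤ 36 * (1 / ρ) ^ 2 * κ ^ 2 := by
    intro x hx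
    have h := qabs_div (ρ := κ) (d := B) (y := x.o2 - a1 * x.y1 - a2 * x.y2 - c0)
      hκ hβ.le (x := qD t h1 2 * x.y1 + qD t h2 2 * x.y2 + qD t s2 2 * x.o2 + qD t d 2)
      (by
        rw [← hB]
        linear_combination (-x.y1) * hBa1 + (-x.y2) * hBa2 - hBc0)
      (qrel2 H 2 x hx)
    have e : 36 * (1 / ρ) ^ 2 * κ ^ 3 / κ = 36 * (1 / ρ) ^ 2 * κ ^ 2 := by
      field_simp
    rw [e] at h
    exact h
  have hy : ∀ x ∈ L, |x.y1 - u.y1| ≤ 2 ∧ |x.y2 - u.y2| ≤ 2 := by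
    intro x hx
    constructor
    · have := qabs_sub (H.hL x hx).1 (H.hL u hu).1; linarith
    · have := qabs_sub (H.hL x hx).2.1 (H.hL u hu).2.1; linarith
  have hbd : |a1| ≤ 4 * (74 * (1 / ρ) ^ 2) / ρ ∧ |a2| ≤ 4 * (74 * (1 / ρ) ^ 2) / ρ := by
    have hdiff : ∀ x ∈ L, |a1 * (x.y1 - u.y1) + a2 * (x.y2 - u.y2)| ≤ 74 * (1 / ρ) ^ 2 := by
      intro x hx
      have ho : |x.o2 - u.o2| ≤ 2 := by
        have := qabs_sub (H.hL x hx).2.2.2 (H.hL u hu).2.2.2; linarith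
      have h := qabs_sub ho (qabs_sub (F1 x hx) (F1 u hu))
      have e : x.o2 - u.o2 - (x.o2 - a1 * x.y1 - a2 * x.y2 - c0
        - (u.o2 - a1 * u.y1 - a2 * u.y2 - c0))
          = a1 * (x.y1 - u.y1) + a2 * (x.y2 - u.y2) := by ring
      rw [e] at h
      set r := 1 / ρ with hr
      have m := qmono r1 H.hκ.le H.hκ1 (le_refl 2) (show 0 ≤ 2 by norm_num)
      have m' : (1 : ℝ) ≤ r ^ 2 := one_le_pow₀ r1
      simp only [pow_zero, mul_one] at m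
      linarith
    exact qcramer H.hρ (hdiff v hv) (hdiff w hw) (hy v hv).1 (hy v hv).2 (hy w hw).1
      (hy w hw).2 hdet
  have eA : 4 * (74 * (1 / ρ) ^ 2) / ρ = 296 * (1 / ρ) ^ 3 := by
    field_simp; ring
  rw [eA] at hbd
  obtain ⟨hba1, hba2⟩ := hbd
  -- the third node
  have h3 : |qD t h1 3 + qD t s2 3 * a1| ≤ 2016 * (1 / ρ) ^ 3 * κ ^ 2 ∧
      |qD t h2 3 + qD t s2 3 * a2| ≤ 2016 * (1 / ρ) ^ 3 * κ ^ 2 := by
    have hrel : ∀ x ∈ L, |(qD t h1 3 + qD t s2 3 * a1) * x.y1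
        + (qD t h2 3 + qD t s2 3 * a2) * x.y2 + (qD t d 3 + qD t s2 3 * c0)|
          ≤ 252 * (1 / ρ) ^ 2 * κ ^ 2 := by
      intro x hx
      have hB3 := qD_bound H s2 3 1 H.hs2
      have h := qabs_sub (qrel2 H 3 x hx) (qabs_mul hB3 (F1 x hx))
      have e : qD t h1 3 * x.y1 + qD t h2 3 * x.y2 + qD t s2 3 * x.o2 + qD t d 3
        - qD t s2 3 * (x.o2 - a1 * x.y1 - a2 * x.y2 - c0)
          = (qD t h1 3 + qD t s2 3 * a1) * x.y1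
        + (qD t h2 3 + qD t s2 3 * a2) * x.y2 + (qD t d 3 + qD t s2 3 * c0) := by ring
      rw [e] at h
      set r := 1 / ρ with hr
      have m := qmono r1 H.hκ.le H.hκ1 (le_refl 2) (show 2 ≤ 3 by norm_num)
      linarith
    have hdiff : ∀ x ∈ L, |(qD t h1 3 + qD t s2 3 * a1) * (x.y1 - u.y1)
        + (qD t h2 3 + qD t s2 3 * a2) * (x.y2 - u.y2)| ≤ 504 * (1 / ρ) ^ 2 * κ ^ 2 := by
      intro x hx
      have h := qabs_sub (hrel x hx) (hrel u hu)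
      have e : (qD t h1 3 + qD t s2 3 * a1) * x.y1
        + (qD t h2 3 + qD t s2 3 * a2) * x.y2 + (qD t d 3 + qD t s2 3 * c0)
        - ((qD t h1 3 + qD t s2 3 * a1) * u.y1
        + (qD t h2 3 + qD t s2 3 * a2) * u.y2 + (qD t d 3 + qD t s2 3 * c0))
          = (qD t h1 3 + qD t s2 3 * a1) * (x.y1 - u.y1)
        + (qD t h2 3 + qD t s2 3 * a2) * (x.y2 - u.y2) := by ring
      rw [e] at h
      linarith
    have h := qcramer H.hρ (hdiff v hv) (hdiff w hw) (hy v hv).1 (hy v hv).2 (hy w hw).1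
      (hy w hw).2 hdet
    have e : 4 * (504 * (1 / ρ) ^ 2 * κ ^ 2) / ρ = 2016 * (1 / ρ) ^ 3 * κ ^ 2 := by
      field_simp; ring
    rw [e] at h
    exact h
  have p3 : 0 ≤ 2016 * (1 / ρ) ^ 3 * κ ^ 2 := by
    have := H.hρ; positivity
  have G1 : ∀ k : Fin 4, (k = 2 ∨ k = 3) →
      |qD t (fun i => h1 i + a1 * s2 i) k| ≤ 2016 * (1 / ρ) ^ 3 * κ ^ 2 := by
    intro k hk
    have e : qD t (fun i => h1 i + a1 * s2 i) k = qD t h1 k + qD t s2 k * a1 := by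
      unfold qD qE; ring
    rw [e]
    rcases hk with rfl | rfl
    · have : qD t h1 2 + qD t s2 2 * a1 = 0 := by rw [← hB]; linarith
      rw [this, abs_zero]; exact p3
    · exact h3.1
  have G2 : ∀ k : Fin 4, (k = 2 ∨ k = 3) →
      |qD t (fun i => h2 i + a2 * s2 i) k| ≤ 2016 * (1 / ρ) ^ 3 * κ ^ 2 := by
    intro k hk
    have e : qD t (fun i => h2 i + a2 * s2 i) k = qD t h2 k + qD t s2 k * a2 := by
      unfold qD qE; ring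
    rw [e]
    rcases hk with rfl | rfl
    · have : qD t h2 2 + qD t s2 2 * a2 = 0 := by rw [← hB]; linarith
      rw [this, abs_zero]; exact p3
    · exact h3.2
  have d01 : ρ ≤ |t 1 - t 0| := H.hd 1 0 (by decide)
  obtain ⟨b2, β, x0, x1, xk⟩ := qint H.hρ d01 (h2 0 + a2 * s2 0) (h2 1 + a2 * s2 1)
  obtain ⟨u', q, y0, y1, yk⟩ := qint H.hρ d01 (h1 0 + a1 * s2 0) (h1 1 + a1 * s2 1)
  obtain ⟨b0, b1, z0, z1, zk⟩ := qint H.hρ d01 (s1 0) (s1 1)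
  have eM : 2016 * (1 / ρ) ^ 3 * κ ^ 2 / ρ = 2016 * (1 / ρ) ^ 4 * κ ^ 2 := by field_simp
  have eN : 30 * (1 / ρ) ^ 2 * κ ^ 3 / ρ = 30 * (1 / ρ) ^ 3 * κ ^ 3 := by field_simp
  have pM : 0 ≤ 2016 * (1 / ρ) ^ 4 * κ ^ 2 := by have := H.hρ; positivity
  have pN : 0 ≤ 30 * (1 / ρ) ^ 3 * κ ^ 3 := by have := H.hρ; positivity
  have X : ∀ i : Fin 4, |h2 i + a2 * s2 i - b2 - β * t i| ≤ 2016 * (1 / ρ) ^ 4 * κ ^ 2 := by
    intro i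
    fin_cases i
    · have : h2 0 + a2 * s2 0 - b2 - β * t 0 = 0 := by linarith
      simp only [Fin.zero_eta, this, abs_zero]; exact pM
    · have : h2 1 + a2 * s2 1 - b2 - β * t 1 = 0 := by linarith
      simp only [Fin.mk_one, this, abs_zero]; exact pM
    · have h := xk (t 2) (h2 2 + a2 * s2 2) _ (G2 2 (Or.inl rfl)); rw [eM] at h; exact h
    · have h := xk (t 3) (h2 3 + a2 * s2 3) _ (G2 3 (Or.inr rfl)); rw [eM] at h; exact h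
  have Y : ∀ i : Fin 4, |h1 i + a1 * s2 i - u' - q * t i| ≤ 2016 * (1 / ρ) ^ 4 * κ ^ 2 := by
    intro i
    fin_cases i
    · have : h1 0 + a1 * s2 0 - u' - q * t 0 = 0 := by linarith
      simp only [Fin.zero_eta, this, abs_zero]; exact pM
    · have : h1 1 + a1 * s2 1 - u' - q * t 1 = 0 := by linarith
      simp only [Fin.mk_one, this, abs_zero]; exact pM
    · have h := yk (t 2) (h1 2 + a1 * s2 2) _ (G1 2 (Or.inl rfl)); rw [eM] at h; exact h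
    · have h := yk (t 3) (h1 3 + a1 * s2 3) _ (G1 3 (Or.inr rfl)); rw [eM] at h; exact h
  have Z : ∀ i : Fin 4, |s1 i - b0 - b1 * t i| ≤ 30 * (1 / ρ) ^ 3 * κ ^ 3 := by
    intro i
    fin_cases i
    · have : s1 0 - b0 - b1 * t 0 = 0 := by linarith
      simp only [Fin.zero_eta, this, abs_zero]; exact pN
    · have : s1 1 - b0 - b1 * t 1 = 0 := by linarith
      simp only [Fin.mk_one, this, abs_zero]; exact pN
    · have h := zk (t 2) (s1 2) _ (qB1 H 2); rw [eN] at h; exact h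
    · have h := zk (t 3) (s1 3) _ (qB1 H 3); rw [eN] at h; exact h
  obtain ⟨U, hU⟩ : ∃ U, U = u' - b1 := ⟨_, rfl⟩
  -- the error of the second component
  have W : ∀ i : Fin 4, |a1 * (t i * s2 i) - (-b0 + U * t i + q * t i ^ 2)|
      ≤ 2046 * (1 / ρ) ^ 4 * κ ^ 2 := by
    intro i
    have h := qabs_sub (qabs_mul (H.ht i) (Y i)) (Z i)
    have e : t i * (h1 i + a1 * s2 i - u' - q * t i) - (s1 i - b0 - b1 * t i)
        = a1 * (t i * s2 i) - (-b0 + U * t i + q * t i ^ 2) := by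
      rw [hU, H.e1 i]; ring
    rw [e] at h
    set r := 1 / ρ with hr
    have m := qmono r1 H.hκ.le H.hκ1 (show 3 ≤ 4 by norm_num) (show 2 ≤ 3 by norm_num)
    linarith
  have b1a2 : ∀ i : Fin 4, |1 + a2 * t i| ≤ 297 * (1 / ρ) ^ 3 := by
    intro i
    have h := qabs_add (x := 1) (X := 1) (by simp) (qabs_mul hba2 (H.ht i))
    have m' : (1 : ℝ) ≤ (1 / ρ) ^ 3 := one_le_pow₀ r1
    linarith
  have P : ∀ i : Fin 4, |-b0 + (U - a2 * b0) * t i + (q + a2 * U - a1 * b2) * t i ^ 2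
      + (a2 * q - a1 * β) * t i ^ 3| ≤ 1204398 * (1 / ρ) ^ 7 * κ ^ 2 := by
    intro i
    have sq : |t i ^ 2| ≤ 1 := by
      rw [abs_pow]; exact pow_le_one₀ (abs_nonneg _) (H.ht i)
    have h := qabs_sub (qabs_mul (qabs_mul hba1 sq) (X i)) (qabs_mul (b1a2 i) (W i))
    have e : a1 * t i ^ 2 * (h2 i + a2 * s2 i - b2 - β * t i)
        - (1 + a2 * t i) * (a1 * (t i * s2 i) - (-b0 + U * t i + q * t i ^ 2))
        = -b0 + (U - a2 * b0) * t i + (q + a2 * U - a1 * b2) * t i ^ 2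
      + (a2 * q - a1 * β) * t i ^ 3 := by
      rw [H.e2 i]; ring
    rw [e] at h
    have e2 : 296 * (1 / ρ) ^ 3 * 1 * (2016 * (1 / ρ) ^ 4 * κ ^ 2)
        + 297 * (1 / ρ) ^ 3 * (2046 * (1 / ρ) ^ 4 * κ ^ 2)
        = 1204398 * (1 / ρ) ^ 7 * κ ^ 2 := by ring
    rw [e2] at h
    exact h
  obtain ⟨v0, v1⟩ := qvand H.hρ H.hρ1 (H.ht 0) (H.ht 1) (H.ht 2)
    (H.hd 0 1 (by decide)) (H.hd 0 2 (by decide)) (H.hd 0 3 (by decide))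
    (H.hd 1 2 (by decide)) (H.hd 1 3 (by decide)) (H.hd 2 3 (by decide))
    (P 0) (P 1) (P 2) (P 3)
  have w0 : |b0| ≤ 143323362 * (1 / ρ) ^ 10 * κ ^ 2 := by
    have e : 119 * (1204398 * (1 / ρ) ^ 7 * κ ^ 2) / ρ ^ 3
        = 143323362 * (1 / ρ) ^ 10 * κ ^ 2 := by
      field_simp; ring
    rw [e] at v0
    rw [abs_neg] at v0
    exact v0
  have w1 : |U - a2 * b0| ≤ 98760636 * (1 / ρ) ^ 10 * κ ^ 2 := by
    have e : 82 * (1204398 * (1 / ρ) ^ 7 * κ ^ 2) / ρ ^ 3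
        = 98760636 * (1 / ρ) ^ 10 * κ ^ 2 := by
      field_simp; ring
    rw [e] at v1
    exact v1
  have w2 : |U| ≤ 42522475788 * (1 / ρ) ^ 13 * κ ^ 2 := by
    have h := qabs_add w1 (qabs_mul hba2 w0)
    have e : U - a2 * b0 + a2 * b0 = U := by ring
    rw [e] at h
    set r := 1 / ρ with hr
    have m := qmono r1 H.hκ.le H.hκ1 (show 10 ≤ 13 by norm_num) (le_refl 2)
    have e2 : 296 * r ^ 3 * (143323362 * r ^ 10 * κ ^ 2) = 42423715152 * (r ^ 13 * κ ^ 2) := by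
      ring
    linarith
  -- the first coefficient is small
  have V : ∀ i : Fin 4, |a1 * s2 i - q * t i| ≤ 42665801196 * (1 / ρ) ^ 14 * κ ^ 2 := by
    intro i
    have h := qabs_div H.hρ (H.hτ i) (y := a1 * s2 i - q * t i)
      (x := a1 * (t i * s2 i) - (-b0 + U * t i + q * t i ^ 2) - b0 + U * t i) (by ring)
      (qabs_add (qabs_sub (W i) w0) (qabs_mul w2 (H.ht i)))
    refine le_trans h ?_
    rw [div_le_iff₀ H.hρ]
    have e : 42665801196 * (1 / ρ) ^ 14 * κ ^ 2 * ρ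
        = 42665801196 * ((1 / ρ) ^ 13 * κ ^ 2) := by
      have := H.hρ
      field_simp
    rw [e]
    set r := 1 / ρ with hr
    have m := qmono r1 H.hκ.le H.hκ1 (show 10 ≤ 13 by norm_num) (le_refl 2)
    have m' := qmono r1 H.hκ.le H.hκ1 (show 4 ≤ 13 by norm_num) (le_refl 2)
    linarith
  have w3 : |a1| ≤ 6 * 42665801196 * (1 / ρ) ^ 14 * κ := by
    have h := qD_bound H (fun i => a1 * s2 i - q * t i) 2 _ V
    have e : qD t (fun i => a1 * s2 i - q * t i) 2 = B * a1 := by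
      rw [hB]; unfold qD qE; ring
    rw [e] at h
    have h' := qabs_div (ρ := κ) (d := B) (y := a1) hκ hβ.le rfl h
    have e2 : 6 * (42665801196 * (1 / ρ) ^ 14 * κ ^ 2) / κ
        = 6 * 42665801196 * (1 / ρ) ^ 14 * κ := by
      field_simp
    rw [e2] at h'
    exact h'
  have q14 : (0 : ℝ) ≤ (1 / ρ) ^ 14 * κ := by have := H.hρ; positivity
  refine ⟨a2, c0, b1, b2, β, ?_, ?_, ?_⟩
  · have m := qmono r1 H.hκ.le H.hκ1 (show 3 ≤ 14 by norm_num) (le_refl 0)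
    simp only [pow_zero, mul_one] at m
    have m' : (1 : ℝ) ≤ (1 / ρ) ^ 14 := one_le_pow₀ r1
    linarith
  · intro x hx
    have h := qabs_add (F1 x hx) (qabs_mul w3 (H.hL x hx).1)
    have e : x.o2 - a1 * x.y1 - a2 * x.y2 - c0 + a1 * x.y1 = x.o2 - a2 * x.y2 - c0 := by ring
    rw [e] at h
    set r := 1 / ρ with hr
    have m := qmono r1 H.hκ.le H.hκ1 (show 2 ≤ 14 by norm_num) (show 1 ≤ 2 by norm_num)
    simp only [pow_one] at m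
    linarith
  · intro i
    constructor
    · have h := qabs_add (Z i) w0
      have e : s1 i - b0 - b1 * t i + b0 = s1 i - t i * b1 := by ring
      rw [e] at h
      set r := 1 / ρ with hr
      have m := qmono r1 H.hκ.le H.hκ1 (show 3 ≤ 14 by norm_num) (show 1 ≤ 3 by norm_num)
      have m' := qmono r1 H.hκ.le H.hκ1 (show 10 ≤ 14 by norm_num) (show 1 ≤ 2 by norm_num)
      simp only [pow_one] at m m'
      linarith
    · have h := qabs_mul (H.ht i) (X i)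
      have e : t i * (h2 i + a2 * s2 i - b2 - β * t i)
          = (1 + a2 * t i) * s2 i - t i * b2 - t i ^ 2 * β := by
        rw [H.e2 i]; ring
      rw [e] at h
      set r := 1 / ρ with hr
      have m := qmono r1 H.hκ.le H.hκ1 (show 4 ≤ 14 by norm_num) (show 1 ≤ 2 by norm_num)
      simp only [pow_one] at m
      linarith

/-- Exchange of the nodes `2` and `3`. -/
theorem QHyp.swap {ρ κ : ℝ} {t s1 s2 h1 h2 d : Fin 4 → ℝ} {L : Set QElt}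
    (H : QHyp ρ κ t s1 s2 h1 h2 d L) (f : Equiv.Perm (Fin 4)) :
    QHyp ρ κ (t ∘ f) (s1 ∘ f) (s2 ∘ f) (h1 ∘ f) (h2 ∘ f) (d ∘ f) L where
  hρ := H.hρ
  hρ1 := H.hρ1
  hκ := H.hκ
  hκ1 := H.hκ1
  ht _ := H.ht _
  hτ _ := H.hτ _
  hd _ _ hij := H.hd _ _ (fun h => hij (f.injective h))
  hs1 _ := H.hs1 _
  hs2 _ := H.hs2 _
  e1 _ := H.e1 _
  e2 _ := H.e2 _
  b1 _ := H.b1 _
  b2 _ := H.b2 _
  hL := H.hL
  hr v hv _ := H.hr v hv _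
  A1 := H.A1
  A2 := H.A2

theorem qhyp_of {ρ κ : ℝ} {t s1 s2 c : Fin 4 → ℝ} {L : Set QElt} (hρ : 0 < ρ) (hρ1 : ρ ≤ 1)
    (hκ : 0 < κ) (hκ1 : κ ≤ 1)
    (ht : ∀ i, |t i| ≤ 1 ∧ ρ ≤ |t i|) (hd : ∀ i j, i ≠ j → ρ ≤ |t i - t j|)
    (hs : ∀ i, |s1 i| ≤ 1 ∧ |s2 i| ≤ 1)
    (hL : ∀ v ∈ L, |v.y1| ≤ 1 ∧ |v.y2| ≤ 1 ∧ |v.o1| ≤ 1 ∧ |v.o2| ≤ 1)
    (hr : ∀ v ∈ L, ∀ i, |s1 i * (v.y1 + t i * v.o1) + s2 i * (v.y2 + t i * v.o2) + c i
        - t i * v.be - t i ^ 2 * v.ga| ≤ κ ^ 3)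
    (A1 : ∃ u ∈ L, ∃ v ∈ L, ∃ w ∈ L,
        ρ ≤ |(v.y1 - u.y1) * (w.y2 - u.y2) - (v.y2 - u.y2) * (w.y1 - u.y1)|)
    (A2 : ∃ v ∈ L, ∃ w ∈ L, |v.y1 - w.y1| ≤ κ ^ 3 ∧ |v.y2 - w.y2| ≤ κ ^ 3 ∧
        |v.o2 - w.o2| ≤ κ ^ 3 ∧ ρ ≤ |v.o1 - w.o1|) :
    QHyp ρ κ t s1 s2 (fun i => s1 i / t i) (fun i => s2 i / t i) (fun i => c i / t i) L := by
  have t0 : ∀ i, t i ≠ 0 := fun i h => by
    have := (ht i).2; rw [h] at this; simp at this; linarith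
  have e1 : ∀ i, s1 i = t i * (s1 i / t i) := fun i => by have := t0 i; field_simp
  have e2 : ∀ i, s2 i = t i * (s2 i / t i) := fun i => by have := t0 i; field_simp
  have e3 : ∀ i, c i = t i * (c i / t i) := fun i => by have := t0 i; field_simp
  refine ⟨hρ, hρ1, hκ, hκ1, fun i => (ht i).1, fun i => (ht i).2, hd, fun i => (hs i).1,
    fun i => (hs i).2, e1, e2, fun i => qabs_div hρ (ht i).2 (e1 i).symm (hs i).1,
    fun i => qabs_div hρ (ht i).2 (e2 i).symm (hs i).2, hL, ?_, A1, A2⟩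
  intro v hv i
  have h := qabs_div hρ (ht i).2 (y := s1 i / t i * v.y1 + s1 i * v.o1
    + (s2 i / t i * v.y2 + s2 i * v.o2) + c i / t i - v.be - t i * v.ga) (x := _) ?_ (hr v hv i)
  · refine le_trans h (le_of_eq ?_)
    ring
  · have h1 := e1 i
    have h2 := e2 i
    have h3 := e3 i
    linear_combination (-v.y1) * h1 + (-v.y2) * h2 - h3

/-- **Row QALG.** -/
theorem qalg_thm : QALGStmt := by
  intro ρ hρ hρ1
  have r1 : 1 ≤ 1 / ρ := by rw [le_div_iff₀ hρ]; linarith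
  have r0 : 0 < 1 / ρ := by linarith
  refine ⟨300000000000 * (1 / ρ) ^ 14, by positivity, ?_⟩
  intro κ t s1 s2 c L hκ hκ1 ht hd hs hL hr A1 A2
  have H := qhyp_of hρ hρ1 hκ hκ1 ht hd hs hL hr A1 A2
  by_cases h2 : κ < |qD t s2 2|
  · exact Or.inr (qcaseII H h2)
  by_cases h3 : κ < |qD t s2 3|
  · right
    have H' := H.swap (Equiv.swap 2 3)
    have e : qD (t ∘ (Equiv.swap (2 : Fin 4) 3)) (s2 ∘ (Equiv.swap (2 : Fin 4) 3)) 2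
        = qD t s2 3 := by
      unfold qD
      simp only [Function.comp]
      have a0 : Equiv.swap (2 : Fin 4) 3 0 = 0 := by decide
      have a1 : Equiv.swap (2 : Fin 4) 3 1 = 1 := by decide
      have a2 : Equiv.swap (2 : Fin 4) 3 2 = 3 := by decide
      rw [a0, a1, a2]
    obtain ⟨α, c0, b1, b2, β, x, y, z⟩ := qcaseII H' (by rw [e]; exact h3)
    refine ⟨α, c0, b1, b2, β, x, y, ?_⟩
    intro i
    have := z (Equiv.swap 2 3 i)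
    simpa only [Function.comp, Equiv.swap_apply_self] using this
  · left
    obtain ⟨b1, b2, h⟩ := qcaseI H (not_lt.mp h2) (not_lt.mp h3)
    refine ⟨b1, b2, ?_⟩
    intro i
    have m := qmono r1 hκ.le hκ1 (show 6 ≤ 14 by norm_num) (le_refl 1)
    have p : (0 : ℝ) ≤ (1 / ρ) ^ 14 * κ := by positivity
    simp only [pow_one] at m
    constructor
    · refine le_trans (h i).1 ?_; linarith
    · refine le_trans (h i).2 ?_; linarith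

end Pool.KAL
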